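import Pool.Agent.Q7.GK.Stm2
import Pool.Agent.Y944.LC.BRU
import Pool.Agent.Y696.Fac

/-!
# Project GK (helper7), job GAB1: sums of logarithms with characters are not zero
-/

set_option autoImplicit false

namespace Pool.Agent.Q153.GK

open NumberField IsDedekindDomain Finset
open Pool.Agent.W254.PA (ic)
open Pool.Agent.Y944.LC (La ic_La isLog_La)
open Pool.Agent.W245.PB (brumer exists_near)

section dlog

variable {K : Type} [Field K] {d : K → ℤ} (hd : ∀ x y : K, x ≠ 0 → y ≠ 0 → d (x * y) = d x + d y)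
include hd

theorem d_one : d 1 = 0 := by
  have h := hd 1 1 one_ne_zero one_ne_zero
  rw [mul_one] at h
  omega

theorem d_pow {x : K} (hx : x ≠ 0) (n : ℕ) : d (x ^ n) = n * d x := by
  induction n with
  | zero => simp [d_one hd]
  | succ n ih =>
    rw [pow_succ, hd _ _ (pow_ne_zero _ hx) hx, ih]
    push_cast
    ring

theorem d_inv {x : K} (hx : x ≠ 0) : d x⁻¹ = - d x := by
  have h := hd x x⁻¹ hx (inv_ne_zero hx)
  rw [mul_inv_cancel₀ hx, d_one hd] at h
  omega

theorem d_zpow {x : K} (hx : x ≠ 0) (n : ℤ) : d (x ^ n) = n * d x := by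
  obtain ⟨m, rfl | rfl⟩ := n.eq_nat_or_neg
  · rw [zpow_natCast, d_pow hd hx]
  · rw [zpow_neg, zpow_natCast, d_inv hd (pow_ne_zero _ hx), d_pow hd hx]
    ring

theorem d_prod {ι : Type} (s : Finset ι) (f : ι → K) (hf : ∀ i ∈ s, f i ≠ 0) :
    d (∏ i ∈ s, f i) = ∑ i ∈ s, d (f i) := by
  classical
  induction s using Finset.induction_on with
  | empty => simp [d_one hd]
  | insert i s hi ih =>
    rw [Finset.prod_insert hi, Finset.sum_insert hi, hd _ _ (hf i (mem_insert_self _ _))
      (Finset.prod_ne_zero_iff.2 fun j hj => hf j (mem_insert_of_mem hj)),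
      ih fun j hj => hf j (mem_insert_of_mem hj)]

end dlog

section

variable {p : ℕ} [hp : Fact p.Prime]

/-- an embedding in `ℂ_p` factors through the algebraic closure of `ℚ_p` -/
theorem fac {K : Type} [Field K] [NumberField K] (σ₀ : K →+* ℂ_[p]) :
    ∃ σ₁ : K →+* PadicAlgCl p, (ic p).comp σ₁ = σ₀ := by
  classical
  have hinj : Function.Injective (fun σ : K →+* PadicAlgCl p => (ic p).comp σ) := by
    intro a b hab
    ext x
    apply (ic p).injective
    exact RingHom.congr_fun hab x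
  have hcard : Fintype.card (K →+* PadicAlgCl p) = Fintype.card (K →+* ℂ_[p]) := by
    rw [NumberField.Embeddings.card, NumberField.Embeddings.card]
  exact ((Fintype.bijective_iff_injective_and_card _).2 ⟨hinj, hcard⟩).2 σ₀

/-- an algebraic element of `ℂ_p` comes from the algebraic closure of `ℚ_p` -/
theorem lift_alg (z : ℂ_[p]) (hz : IsAlgebraic ℚ z) :
    ∃ y : PadicAlgCl p, ic p y = z ∧ IsAlgebraic ℚ y := by
  have hf0 : minpoly ℚ z ≠ 0 := minpoly.ne_zero hz.isIntegral
  have h1 : (((minpoly ℚ z).map (algebraMap ℚ (PadicAlgCl p))).map (ic p)) =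
      (minpoly ℚ z).map (algebraMap ℚ ℂ_[p]) := by
    rw [Polynomial.map_map]
    congr 1
    exact Subsingleton.elim _ _
  have h2 : z ∈ (((minpoly ℚ z).map (algebraMap ℚ (PadicAlgCl p))).map (ic p)).roots := by
    rw [h1, Polynomial.mem_roots (Polynomial.map_ne_zero hf0), Polynomial.IsRoot,
      Polynomial.eval_map_algebraMap, minpoly.aeval]
  rw [(IsAlgClosed.splits _).roots_map (ic p), Multiset.mem_map] at h2
  obtain ⟨y, hy, hyz⟩ := h2
  refine ⟨y, hyz, minpoly ℚ z, hf0, ?_⟩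
  rw [Polynomial.mem_roots (Polynomial.map_ne_zero hf0), Polynomial.IsRoot,
    Polynomial.eval_map_algebraMap] at hy
  exact hy

/-- a linear relation with algebraic coefficients between logarithms, and homomorphisms to the integers which vanish at `p` -/
theorem brel {L : PadicAlgCl p → PadicAlgCl p} (hL : Pool.Agent.W245.PB.IsIwasawaLog p L)
    {K : Type} [Field K] [NumberField K] (σ : K →+* PadicAlgCl p) {ι : Type} [Fintype ι] (x : ι → K)
    (hx : ∀ i, x i ≠ 0) (β : ι → PadicAlgCl p) (hβ : ∀ i, IsAlgebraic ℚ (β i))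
    (h : ∑ i, β i * L (σ (x i)) = 0) (d : K → ℤ)
    (hd : ∀ x y : K, x ≠ 0 → y ≠ 0 → d (x * y) = d x + d y) (hdp : d (p : K) = 0) :
    ∑ i, β i * (d (x i) : PadicAlgCl p) = 0 := by
  classical
  have hpK : (p : K) ≠ 0 := Nat.cast_ne_zero.2 hp.out.ne_zero
  have hpC : (p : PadicAlgCl p) ≠ 0 := Nat.cast_ne_zero.2 hp.out.ne_zero
  obtain ⟨κ, a, ha, hsp, hli⟩ := exists_linearIndependent' ℚ (fun i => L (σ (x i)))
  have : Finite κ := Finite.of_injective a ha
  have : Fintype κ := Fintype.ofFinite κ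
  have hmem : ∀ i, ∃ c : κ → ℚ, ∑ k, c k • ((fun i => L (σ (x i))) ∘ a) k = L (σ (x i)) := by
    intro i
    have h1 : L (σ (x i)) ∈ Submodule.span ℚ (Set.range ((fun i => L (σ (x i))) ∘ a)) := by
      rw [hsp]
      exact Submodule.subset_span ⟨i, rfl⟩
    exact (Submodule.mem_span_range_iff_exists_fun ℚ).1 h1
  choose c hc using hmem
  have hc' : ∀ i, L (σ (x i)) = ∑ k, (c i k : PadicAlgCl p) * L (σ (x (a k))) := by
    intro i
    rw [← hc i]
    refine Finset.sum_congr rfl fun k _ => ?_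
    rw [Function.comp, Algebra.smul_def, eq_ratCast]
  have hσx : ∀ i, σ (x i) ≠ 0 := fun i => (map_ne_zero σ).2 (hx i)
  -- the theorem of Brumer
  have hB : ∀ k, ∑ i, β i * (c i k : PadicAlgCl p) = 0 := by
    refine (brumer hL (fun k => σ (x (a k))) (fun k => hσx _) (fun k => ?_) hli 0 isAlgebraic_zero
      (fun k => ∑ i, β i * (c i k : PadicAlgCl p)) (fun k => ?_) ?_).2
    · exact (Algebra.IsAlgebraic.isAlgebraic (R := ℚ) (x (a k))).algHom σ.toRatAlgHom
    · refine mem_algebraicClosure_iff.1 (sum_mem fun i _ => mem_algebraicClosure_iff.2 ((hβ i).mul ?_))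
      exact isAlgebraic_algebraMap (A := PadicAlgCl p) (c i k)
    · rw [zero_add]
      have h1 : ∑ k, (∑ i, β i * (c i k : PadicAlgCl p)) * L (σ (x (a k))) = ∑ i, β i * L (σ (x i)) := by
        calc ∑ k, (∑ i, β i * (c i k : PadicAlgCl p)) * L (σ (x (a k)))
            = ∑ k, ∑ i, β i * ((c i k : PadicAlgCl p) * L (σ (x (a k)))) := by
              refine Finset.sum_congr rfl fun k _ => ?_
              rw [Finset.sum_mul]
              exact Finset.sum_congr rfl fun i _ => by ring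
          _ = ∑ i, ∑ k, β i * ((c i k : PadicAlgCl p) * L (σ (x (a k)))) := Finset.sum_comm
          _ = ∑ i, β i * L (σ (x i)) := by
              refine Finset.sum_congr rfl fun i _ => ?_
              rw [hc' i, Finset.mul_sum]
      exact h1.trans h
  -- the rational relations
  have hrat : ∀ i, (d (x i) : ℚ) = ∑ k, c i k * (d (x (a k)) : ℚ) := by
    intro i
    obtain ⟨⟨b, hb0⟩, hb⟩ := IsLocalization.exist_integer_multiples_of_finset (nonZeroDivisors ℤ)
      (univ.image (c i))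
    have hb1 : b ≠ 0 := nonZeroDivisors.ne_zero hb0
    have hb2 : ∀ k, ∃ n : ℤ, (n : ℚ) = b * c i k := by
      intro k
      obtain ⟨n, hn⟩ := hb (c i k) (mem_image_of_mem _ (mem_univ k))
      exact ⟨n, by simpa using hn⟩
    choose n hn using hb2
    set z : K := x i ^ b * (∏ k, x (a k) ^ n k)⁻¹ with hz
    have hP0 : (∏ k, x (a k) ^ n k) ≠ 0 :=
      Finset.prod_ne_zero_iff.2 fun k _ => zpow_ne_zero _ (hx _)
    have hz0 : z ≠ 0 := mul_ne_zero (zpow_ne_zero _ (hx i)) (inv_ne_zero hP0)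
    have hLz : L (σ z) = 0 := by
      have hσP : σ (∏ k, x (a k) ^ n k) = ∏ k, σ (x (a k)) ^ n k := by
        rw [map_prod]
        exact Finset.prod_congr rfl fun k _ => map_zpow₀ σ _ _
      rw [hz, map_mul, map_inv₀, map_zpow₀, hσP, hL.mul _ _ (zpow_ne_zero _ (hσx i))
        (inv_ne_zero (Finset.prod_ne_zero_iff.2 fun k _ => zpow_ne_zero _ (hσx _))),
        hL.inv (Finset.prod_ne_zero_iff.2 fun k _ => zpow_ne_zero _ (hσx _)),
        hL.prod _ _ (fun k _ => zpow_ne_zero _ (hσx _)), hL.zpow (hσx i), hc' i, Finset.mul_sum]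
      rw [← sub_eq_add_neg, sub_eq_zero]
      refine Finset.sum_congr rfl fun k _ => ?_
      rw [hL.zpow (hσx _), ← mul_assoc]
      congr 1
      have h3 : ((n k : ℚ) : PadicAlgCl p) = ((b * c i k : ℚ) : PadicAlgCl p) := by rw [hn k]
      push_cast at h3
      exact h3.symm
    obtain ⟨m, r, hm, hnear⟩ := exists_near ((map_ne_zero σ).2 hz0)
    have h1 := hL.eq_one hnear (by
      rw [hL.mul _ _ (pow_ne_zero _ ((map_ne_zero σ).2 hz0)) (zpow_ne_zero _ hpC),
        hL.pow ((map_ne_zero σ).2 hz0), hL.zpow hpC, hLz, hL.prime, mul_zero, mul_zero, add_zero])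
    have h2 : z ^ m * (p : K) ^ r = 1 := by
      apply σ.injective
      rw [map_mul, map_pow, map_zpow₀, map_natCast, map_one]
      exact h1
    have h3 := congrArg d h2
    rw [hd _ _ (pow_ne_zero _ hz0) (zpow_ne_zero _ hpK), d_pow hd hz0, d_zpow hd hpK, hdp, mul_zero,
      add_zero, d_one hd] at h3
    have h4 : d z = 0 := by
      rcases mul_eq_zero.1 h3 with h5 | h5
      · omega
      · exact h5
    rw [hz, hd _ _ (zpow_ne_zero _ (hx i)) (inv_ne_zero hP0), d_zpow hd (hx i), d_inv hd hP0,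
      d_prod hd _ _ (fun k _ => zpow_ne_zero _ (hx _))] at h4
    have h5 : (b : ℚ) * (d (x i) : ℚ) = ∑ k, (n k : ℚ) * (d (x (a k)) : ℚ) := by
      have h6 : b * d (x i) = ∑ k, n k * d (x (a k)) := by
        rw [Finset.sum_congr rfl fun k _ => (d_zpow hd (hx (a k)) (n k)).symm]
        linarith
      exact_mod_cast h6
    have hbq : (b : ℚ) ≠ 0 := by exact_mod_cast hb1
    apply mul_left_cancel₀ hbq
    rw [h5, Finset.mul_sum]
    refine Finset.sum_congr rfl fun k _ => ?_
    rw [hn k]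
    ring
  have hrat' : ∀ i, (d (x i) : PadicAlgCl p) = ∑ k, (c i k : PadicAlgCl p) * (d (x (a k)) : PadicAlgCl p) := by
    intro i
    have h1 : (((d (x i) : ℚ)) : PadicAlgCl p) = ((∑ k, c i k * (d (x (a k)) : ℚ) : ℚ) : PadicAlgCl p) := by
      rw [hrat i]
    push_cast at h1
    exact h1
  calc ∑ i, β i * (d (x i) : PadicAlgCl p)
      = ∑ i, ∑ k, β i * (c i k : PadicAlgCl p) * (d (x (a k)) : PadicAlgCl p) := by
        refine Finset.sum_congr rfl fun i _ => ?_
        rw [hrat' i, Finset.mul_sum]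
        refine Finset.sum_congr rfl fun k _ => ?_
        ring
    _ = ∑ k, (∑ i, β i * (c i k : PadicAlgCl p)) * (d (x (a k)) : PadicAlgCl p) := by
        rw [Finset.sum_comm]
        refine Finset.sum_congr rfl fun k _ => ?_
        rw [Finset.sum_mul]
    _ = 0 := by
        refine Finset.sum_eq_zero fun k _ => ?_
        rw [hB k, zero_mul]

end

open Pool.Agent.W289.SL (IsIwasawaLog)

theorem gab1 : Pool.Agent.Q7.GK.S_GAB1 := by
  intro p hp Lg hL K _ _ hgal hcomm P0 hP0 π hπ0 hπ hout χ hχ hχD σ₀ hsum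
  classical
  obtain ⟨σ₁, hσ⟩ := fac σ₀
  have hLa := isLog_La hL
  -- the values of the character
  have hval : ∀ g : K ≃ₐ[ℚ] K, ∃ y : PadicAlgCl p, ic p y = ((χ g : ℂ_[p]ˣ) : ℂ_[p]) ∧ IsAlgebraic ℚ y := by
    intro g
    apply lift_alg
    have h1 : ((χ g : ℂ_[p]ˣ) : ℂ_[p]) ^ Fintype.card (K ≃ₐ[ℚ] K) = 1 := by
      rw [← Units.val_pow_eq_pow_val, ← map_pow, pow_card_eq_one, map_one, Units.val_one]
    have h2 : IsAlgebraic ℚ (((χ g : ℂ_[p]ˣ) : ℂ_[p]) ^ Fintype.card (K ≃ₐ[ℚ] K)) := by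
      rw [h1]
      exact isAlgebraic_one
    exact IsAlgebraic.of_pow Fintype.card_pos h2
  choose β hβ hβa using hval
  have hmul : ∀ g h, β (g * h) = β g * β h := by
    intro g h
    apply (ic p).injective
    rw [map_mul, hβ, hβ, hβ, map_mul, Units.val_mul]
  have hβ1 : ∀ g, β g = 1 ↔ χ g = 1 := by
    intro g
    constructor
    · intro h
      ext
      rw [← hβ g, h, map_one, Units.val_one]
    · intro h
      apply (ic p).injective
      rw [hβ g, h, Units.val_one, map_one]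
  -- the sum in the algebraic closure
  have hsum' : ∑ g : K ≃ₐ[ℚ] K, β g * La Lg (σ₁ (g π)) = 0 := by
    apply (ic p).injective
    rw [map_sum, map_zero, ← hsum]
    refine Finset.sum_congr rfl fun g _ => ?_
    have hne : σ₁ (g π) ≠ 0 := (map_ne_zero _).2 ((map_ne_zero g).2 hπ0)
    rw [map_mul, hβ, ic_La hL _ hne, ← hσ]
    rfl
  -- the valuation
  set v : K → ℤ := fun x => WithZero.log (P0.valuation K x) with hv
  have hvmul : ∀ x y : K, x ≠ 0 → y ≠ 0 → v (x * y) = v x + v y := by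
    intro x y hx hy
    rw [hv]
    simp only [map_mul]
    exact WithZero.log_mul ((map_ne_zero _).2 hx) ((map_ne_zero _).2 hy)
  have key : ∀ h : K ≃ₐ[ℚ] K, ∑ g : K ≃ₐ[ℚ] K, β g * ((v (h⁻¹ (g π)) - v (g π) : ℤ) : PadicAlgCl p) = 0 := by
    intro h
    refine brel hLa σ₁ (fun g : K ≃ₐ[ℚ] K => g π) (fun g => (map_ne_zero g).2 hπ0) β hβa hsum'
      (fun x => v (h⁻¹ x) - v x) ?_ ?_
    · intro x y hx hy
      rw [map_mul, hvmul x y hx hy, hvmul _ _ ((map_ne_zero _).2 hx) ((map_ne_zero _).2 hy)]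
      ring
    · simp only [map_natCast, sub_self]
  set S : PadicAlgCl p := ∑ g : K ≃ₐ[ℚ] K, β g * (v (g π) : PadicAlgCl p) with hS
  have hSh : ∀ h : K ≃ₐ[ℚ] K, β h * S = S := by
    intro h
    have h1 := key h
    have h2 : ∑ g : K ≃ₐ[ℚ] K, β g * (v (h⁻¹ (g π)) : PadicAlgCl p) = β h * S := by
      rw [hS, Finset.mul_sum, ← Equiv.sum_comp (Equiv.mulLeft h)]
      refine Finset.sum_congr rfl fun u _ => ?_
      rw [Equiv.coe_mulLeft, hmul, mul_assoc]
      congr 3
      rw [← AlgEquiv.mul_apply, inv_mul_cancel_left]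
    rw [← h2, ← sub_eq_zero, hS, ← Finset.sum_sub_distrib, ← h1]
    refine Finset.sum_congr rfl fun g _ => ?_
    push_cast
    ring
  -- the terms of `S`
  have hvπ : v π < 0 := by
    rw [hv]
    simp only
    rw [← WithZero.log_one]
    exact WithZero.log_lt_log ((map_ne_zero _).2 hπ0) one_ne_zero |>.2 hπ
  have hterm : ∀ u : K ≃ₐ[ℚ] K, ∃ t : ℤ, β u * (v (u π) : PadicAlgCl p) = (t : PadicAlgCl p) ∧ t ≤ 0 ∧
      (u = 1 → t < 0) := by
    intro u
    obtain ⟨v', hv'⟩ := Pool.Agent.Y696.val_aut (u : K ≃+* K) P0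
    by_cases hc : v' = P0
    · have h1 : ∀ x : K, P0.valuation K (u x) = P0.valuation K x := by
        intro x
        have := hv' x
        rw [hc] at this
        exact this
      refine ⟨v π, ?_, hvπ.le, fun _ => hvπ⟩
      rw [(hβ1 u).2 (hχD u h1), one_mul]
      rw [hv]
      simp only
      rw [h1]
    · have h1 : P0.valuation K (u π) = 1 := by
        have := hv' π
        rw [hout v' hc] at this
        exact this
      refine ⟨0, ?_, le_refl _, ?_⟩
      · rw [hv]
        simp only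
        rw [h1, WithZero.log_one]
        simp
      · intro hu
        exfalso
        rw [hu] at h1
        have : P0.valuation K π = 1 := h1
        rw [this] at hπ
        exact lt_irrefl _ hπ
  choose t ht ht0 ht1 using hterm
  have hS0 : S ≠ 0 := by
    rw [hS, Finset.sum_congr rfl fun u _ => ht u, ← Int.cast_sum, Int.cast_ne_zero]
    have : ∑ u, t u < ∑ u : K ≃ₐ[ℚ] K, (0 : ℤ) :=
      Finset.sum_lt_sum (fun u _ => ht0 u) ⟨1, mem_univ _, ht1 1 rfl⟩
    rw [Finset.sum_const_zero] at this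
    exact this.ne
  apply hχ
  ext h
  rw [(hβ1 h).1 (mul_right_cancel₀ hS0 ((hSh h).trans (one_mul S).symm))]
  rfl

end Pool.Agent.Q153.GK
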